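import Mathlib

/-!
# An odd number larger than 1155 with perfect deficiency at most 10

`n = 815634435 = 3 * 5 * 7 * 11 * 547 * 1291` has divisor sum `2 * n - 6`, so the greedy
subtraction of its divisors removes all proper divisors and leaves `6`.
-/

namespace Pool.Agent.Results.MP_7acd66_nt.OddTermBeyond1155

/-- One subtraction step: subtract the divisor `d` from the current remainder `r` if possible. -/
def step (r d : ℕ) : ℕ := if d ≤ r then r - d else r

/-- The perfect deficiency of `n`: start with `r = n` and run through the divisors of `n` in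
increasing order, subtracting each divisor that is at most the current remainder. -/
def pd (n : ℕ) : ℕ := (n.divisors.sort (· ≤ ·)).foldl step n

lemma foldl_step_of_sum_le (l : List ℕ) (r : ℕ) (h : l.sum ≤ r) :
    l.foldl step r = r - l.sum := by
  induction l generalizing r with
  | nil => simp
  | cons a t ih =>
    simp only [List.sum_cons] at h
    have ha : a ≤ r := by omega
    simp only [List.foldl_cons, List.sum_cons]
    rw [show step r a = r - a from if_pos ha, ih (r - a) (by omega)]
    omega

lemma sort_divisors (n : ℕ) (hn : n ≠ 0) :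
    n.divisors.sort (· ≤ ·) = n.properDivisors.sort (· ≤ ·) ++ [n] := by
  refine List.Perm.eq_of_pairwise' (r := (· ≤ ·)) (Finset.pairwise_sort _ _) ?_ ?_
  · rw [List.pairwise_append]
    refine ⟨Finset.pairwise_sort _ _, by simp, ?_⟩
    intro a ha b hb
    rw [List.mem_singleton] at hb
    subst hb
    rw [Finset.mem_sort] at ha
    exact (Nat.mem_properDivisors.1 ha).2.le
  · rw [← Multiset.coe_eq_coe, ← Multiset.coe_add, Finset.sort_eq, Finset.sort_eq,
      Multiset.coe_singleton, ← Nat.cons_self_properDivisors hn, Finset.cons_val,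
      ← Multiset.singleton_add, add_comm]

lemma pd_of_sum_properDivisors_lt (n : ℕ) (hn : n ≠ 0) (h : ∑ d ∈ n.properDivisors, d ≤ n)
    (h0 : 0 < ∑ d ∈ n.properDivisors, d) :
    pd n = n - ∑ d ∈ n.properDivisors, d := by
  have hs : (n.properDivisors.sort (· ≤ ·)).sum = ∑ d ∈ n.properDivisors, d := by
    rw [← Multiset.sum_coe, Finset.sort_eq, Finset.sum, Multiset.map_id']
  unfold pd
  rw [sort_divisors n hn, List.foldl_append,
    foldl_step_of_sum_le (n.properDivisors.sort (· ≤ ·)) n (by rw [hs]; exact h), hs]
  simp only [List.foldl_cons, List.foldl_nil, step]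
  rw [if_neg]
  omega

lemma sigma_prime {p : ℕ} (hp : p.Prime) : ∑ d ∈ p.divisors, d = p + 1 := by
  rw [Nat.Prime.sum_divisors hp]

lemma sigma_value : ∑ d ∈ (815634435 : ℕ).divisors, d = 1631268864 := by
  have e : (815634435 : ℕ) = 3 * (5 * (7 * (11 * (547 * 1291)))) := by norm_num
  rw [e, Nat.Coprime.sum_divisors_mul (by norm_num), Nat.Coprime.sum_divisors_mul (by norm_num),
    Nat.Coprime.sum_divisors_mul (by norm_num), Nat.Coprime.sum_divisors_mul (by norm_num),
    Nat.Coprime.sum_divisors_mul (by norm_num), sigma_prime (by norm_num),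
    sigma_prime (by norm_num), sigma_prime (by norm_num), sigma_prime (by norm_num),
    sigma_prime (by norm_num), sigma_prime (by norm_num)]

lemma pd_value : pd 815634435 = 6 := by
  have h1 := Nat.sum_divisors_eq_sum_properDivisors_add_self (n := 815634435)
  rw [sigma_value] at h1
  have h2 : ∑ d ∈ (815634435 : ℕ).properDivisors, d = 815634429 := by omega
  rw [pd_of_sum_properDivisors_lt _ (by norm_num) (by rw [h2]; norm_num) (by rw [h2]; norm_num),
    h2]

theorem result : ∃ n : ℕ, Odd n ∧ 1155 < n ∧ pd n ≤ 10 :=
  ⟨815634435, by decide, by norm_num, by rw [pd_value]; norm_num⟩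

end Pool.Agent.Results.MP_7acd66_nt.OddTermBeyond1155
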